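import Pool.Agent.Helper14_DK.Stmts

/-!
# DK, module CNV: calculus of convolutions
-/

set_option autoImplicit false

namespace Pool.Agent.DK.H79

open MeasureTheory Complex Set Metric Filter
open scoped ContDiff Topology Convolution

variable {n : ℕ}

theorem conv_eq (f g : E n → ℂ) :
    conv f g = MeasureTheory.convolution f g (ContinuousLinearMap.mul ℝ ℂ) volume := rfl

theorem integrable_conv {f h : E n → ℂ} (hf : LocallyIntegrable f volume) (hh : Continuous h)
    (hc : HasCompactSupport h) (z : E n) : Integrable (fun w => f w * h (z - w)) :=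
  (hc.convolutionExists_right (ContinuousLinearMap.mul ℝ ℂ) hf hh) z

theorem contDiff_conv {f g : E n → ℂ} (hf : LocallyIntegrable f volume)
    (hg : ContDiff ℝ ∞ g) (hc : HasCompactSupport g) : ContDiff ℝ ∞ (conv f g) := by
  rw [conv_eq]
  exact hc.contDiff_convolution_right _ hf hg

theorem fderiv_conv {f g : E n → ℂ} (hf : LocallyIntegrable f volume)
    (hg : ContDiff ℝ ∞ g) (hc : HasCompactSupport g) (z v : E n) :
    fderiv ℝ (conv f g) z v = conv f (fun a => fderiv ℝ g a v) z := by
  have h1 : ContDiff ℝ 1 g := hg.of_le (by simp)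
  have h2 := hc.hasFDerivAt_convolution_right (ContinuousLinearMap.mul ℝ ℂ) (μ := volume) hf h1 z
  rw [conv_eq, h2.fderiv, conv_eq]
  exact convolution_precompR_apply _ hf (hc.fderiv ℝ) (h1.continuous_fderiv one_ne_zero) z v

theorem cnv : CnvStmt := by
  intro n f g hf hg hc
  have hcont : ∀ v : E n, Continuous (fun a => fderiv ℝ g a v) := fun v =>
    (hg.continuous_fderiv (by simp)).clm_apply continuous_const
  have hcs : ∀ v : E n, HasCompactSupport (fun a => fderiv ℝ g a v) := fun v =>
    (hc.fderiv ℝ).comp_left (g := fun T : E n →L[ℝ] ℂ => T v) rfl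
  refine ⟨contDiff_conv hf hg hc, fun j z => ?_, fun j z => ?_⟩
  · unfold dbar
    rw [fderiv_conv hf hg hc, fderiv_conv hf hg hc]
    unfold conv
    have i1 := integrable_conv hf (hcont (Pi.single j 1)) (hcs _) z
    have i2 := integrable_conv hf (hcont (Pi.single j I)) (hcs _) z
    have e : (fun w => f w * ((fderiv ℝ g (z - w) (Pi.single j 1) +
        I * fderiv ℝ g (z - w) (Pi.single j I)) / 2)) = fun w => (2 : ℂ)⁻¹ *
        (f w * fderiv ℝ g (z - w) (Pi.single j 1)) + (2 : ℂ)⁻¹ * I *
        (f w * fderiv ℝ g (z - w) (Pi.single j I)) := by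
      funext w
      ring
    rw [e, integral_add (i1.const_mul _) (i2.const_mul _), integral_const_mul,
      integral_const_mul]
    ring
  · unfold dz
    rw [fderiv_conv hf hg hc, fderiv_conv hf hg hc]
    unfold conv
    have i1 := integrable_conv hf (hcont (Pi.single j 1)) (hcs _) z
    have i2 := integrable_conv hf (hcont (Pi.single j I)) (hcs _) z
    have e : (fun w => f w * ((fderiv ℝ g (z - w) (Pi.single j 1) -
        I * fderiv ℝ g (z - w) (Pi.single j I)) / 2)) = fun w => (2 : ℂ)⁻¹ *
        (f w * fderiv ℝ g (z - w) (Pi.single j 1)) + (-((2 : ℂ)⁻¹ * I)) *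
        (f w * fderiv ℝ g (z - w) (Pi.single j I)) := by
      funext w
      ring
    rw [e, integral_add (i1.const_mul _) (i2.const_mul _), integral_const_mul,
      integral_const_mul]
    ring

end Pool.Agent.DK.H79
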