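import Pool.Agent.Helper14_DK.Stmts

/-!
# DK, module WPK: the package of weights and cutoff functions
-/

set_option autoImplicit false

namespace Pool.Agent.DK.H79

open MeasureTheory Complex Set Metric Filter
open scoped ContDiff Topology

variable {n : ℕ}

theorem two_le_infty : (2 : WithTop ℕ∞) ≤ ∞ := WithTop.coe_le_coe.2 (le_top : (2 : ℕ∞) ≤ ⊤)

/-! ### the transition function -/

theorem tau_deriv_bound : ∃ C : ℝ, 0 ≤ C ∧ ∀ x, |deriv Real.smoothTransition x| ≤ C := by
  have hc : Continuous (deriv Real.smoothTransition) :=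
    (Real.smoothTransition.contDiff (n := 1)).continuous_deriv le_rfl
  obtain ⟨C, hC⟩ := (isCompact_Icc (a := (0 : ℝ)) (b := 1)).exists_bound_of_continuousOn
    hc.continuousOn
  refine ⟨max C 0, le_max_right _ _, fun x => ?_⟩
  by_cases hx : x ∈ Icc (0 : ℝ) 1
  · exact (hC x hx).trans (le_max_left _ _)
  · have h0 : deriv Real.smoothTransition x = 0 := by
      rw [mem_Icc, not_and_or, not_le, not_le] at hx
      rcases hx with hx | hx
      · have : Real.smoothTransition =ᶠ[𝓝 x] fun _ => (0 : ℝ) := by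
          filter_upwards [Iio_mem_nhds hx] with y hy
          exact Real.smoothTransition.zero_of_nonpos (le_of_lt hy)
        rw [this.deriv_eq]; simp
      · have : Real.smoothTransition =ᶠ[𝓝 x] fun _ => (1 : ℝ) := by
          filter_upwards [Ioi_mem_nhds hx] with y hy
          exact Real.smoothTransition.one_of_one_le (le_of_lt hy)
        rw [this.deriv_eq]; simp
    rw [h0, abs_zero]
    exact le_max_right _ _

/-! ### basic facts -/

theorem nsq_nonneg' (w : E n) : 0 ≤ nsq w := Finset.sum_nonneg fun _ _ => sq_nonneg _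

theorem contDiff_nsq : ContDiff ℝ ∞ (nsq : E n → ℝ) := by
  unfold nsq
  exact ContDiff.sum fun j _ => (contDiff_apply ℝ ℂ j).norm_sq ℝ

theorem nsq_smul (c : ℝ) (w : E n) : nsq (c • w) = c ^ 2 * nsq w := by
  unfold nsq
  rw [Finset.mul_sum]
  refine Finset.sum_congr rfl fun j _ => ?_
  rw [Pi.smul_apply, norm_smul, mul_pow, Real.norm_eq_abs, sq_abs]

theorem nsq_pos {w : E n} (hw : w ≠ 0) : 0 < nsq w := by
  obtain ⟨j, hj⟩ : ∃ j, w j ≠ 0 := by
    by_contra h
    push Not at h
    exact hw (funext h)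
  unfold nsq
  refine Finset.sum_pos' (fun _ _ => sq_nonneg _) ⟨j, Finset.mem_univ _, ?_⟩
  have : 0 < ‖w j‖ := norm_pos_iff.2 hj
  positivity

theorem Lv_eq (f : E n → ℝ) (z w : E n) :
    Lv f z w = (fderiv ℝ (fderiv ℝ f) z w w + fderiv ℝ (fderiv ℝ f) z (I • w) (I • w)) / 4 := by
  unfold Lv
  rw [iteratedFDeriv_two_apply, iteratedFDeriv_two_apply]
  simp

theorem Lv_smul (f : E n → ℝ) (z w : E n) (c : ℝ) : Lv f z (c • w) = c ^ 2 * Lv f z w := by
  rw [Lv_eq, Lv_eq]
  have h : I • (c • w) = c • (I • w) := by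
    rw [smul_comm]
  rw [h]
  simp only [map_smul, _root_.smul_apply, smul_eq_mul]
  ring

theorem continuousOn_Lv {D : Set (E n)} (hD : IsOpen D) {f : E n → ℝ}
    (hf : ContDiffOn ℝ ∞ f D) :
    ContinuousOn (fun p : E n × E n => Lv f p.1 p.2) (D ×ˢ univ) := by
  have h1 : ContDiffOn ℝ 1 (fderiv ℝ f) D := hf.fderiv_of_isOpen hD
    (by rw [one_add_one_eq_two]; exact two_le_infty)
  have h2 : ContinuousOn (fderiv ℝ (fderiv ℝ f)) D := h1.continuousOn_fderiv_of_isOpen hD le_rfl
  have h3 : ContinuousOn (fun p : E n × E n => fderiv ℝ (fderiv ℝ f) p.1) (D ×ˢ univ) :=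
    h2.comp continuous_fst.continuousOn fun p hp => hp.1
  simp only [Lv_eq]
  refine ContinuousOn.div_const (ContinuousOn.add ?_ ?_) 4
  · exact (h3.clm_apply continuous_snd.continuousOn).clm_apply continuous_snd.continuousOn
  · have : Continuous fun p : E n × E n => I • p.2 := continuous_snd.const_smul I
    exact (h3.clm_apply this.continuousOn).clm_apply this.continuousOn

theorem Lv_lower {D : Set (E n)} {s : E n → ℝ} (hs : Exh D s) {S : Set (E n)}
    (hS : IsCompact S) (hSD : S ⊆ D) : ∃ m : ℝ, 0 < m ∧ ∀ z ∈ S, ∀ w, m * nsq w ≤ Lv s z w := by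
  have hU : IsCompact {w : E n | nsq w = 1} := by
    refine isCompact_of_isClosed_isBounded
      (isClosed_eq contDiff_nsq.continuous continuous_const) ?_
    refine (isBounded_closedBall (x := (0 : E n)) (r := 1)).subset fun w hw => ?_
    rw [mem_closedBall, dist_zero_right]
    refine (pi_norm_le_iff_of_nonneg zero_le_one).2 fun j => ?_
    have h1 : ‖w j‖ ^ 2 ≤ nsq w :=
      Finset.single_le_sum (f := fun j => ‖w j‖ ^ 2) (fun _ _ => sq_nonneg _) (Finset.mem_univ j)
    rw [mem_ofPred_eq] at hw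
    rw [hw] at h1
    nlinarith [norm_nonneg (w j)]
  have hc : ContinuousOn (fun p : E n × E n => Lv s p.1 p.2) (S ×ˢ {w : E n | nsq w = 1}) :=
    (continuousOn_Lv hs.op hs.sm).mono (prod_mono hSD (subset_univ _))
  obtain ⟨m, hm0, hm⟩ := (hS.prod hU).exists_forall_le' (a := 0) hc (fun p hp => by
    refine hs.psh p.1 (hSD hp.1) p.2 fun h0 => ?_
    have : nsq p.2 = 1 := hp.2
    rw [h0] at this
    simp [nsq] at this)
  refine ⟨m, hm0, fun z hz w => ?_⟩
  by_cases hw : w = 0
  · subst hw
    have h1 : nsq (0 : E n) = 0 := by simp [nsq]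
    have h2 : Lv s z (0 : E n) = 0 := by
      rw [Lv_eq]; simp
    rw [h1, h2, mul_zero]
  · have hp := nsq_pos hw
    set r := Real.sqrt (nsq w) with hr
    have hr0 : 0 < r := Real.sqrt_pos.2 hp
    have hr2 : r ^ 2 = nsq w := Real.sq_sqrt hp.le
    have e : w = r • (r⁻¹ • w) := by
      rw [smul_smul, mul_inv_cancel₀ hr0.ne', one_smul]
    have h1 : nsq (r⁻¹ • w) = 1 := by
      rw [nsq_smul, ← hr2, inv_pow, inv_mul_cancel₀ (by positivity)]
    have h2 := hm (z, r⁻¹ • w) ⟨hz, h1⟩
    simp only at h2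
    calc m * nsq w = r ^ 2 * m := by rw [hr2]; ring
      _ ≤ r ^ 2 * Lv s z (r⁻¹ • w) := by
          exact mul_le_mul_of_nonneg_left h2 (by positivity)
      _ = Lv s z w := by rw [← Lv_smul, ← e]

/-- chain rule for `∂/∂z_j` -/
theorem dz_comp {f : E n → ℝ} {h : ℝ → ℝ} {z : E n} (hf : DifferentiableAt ℝ f z)
    (hh : DifferentiableAt ℝ h (f z)) (j : Fin n) :
    dz j (cx fun y => h (f y)) z = ((deriv h (f z) : ℝ) : ℂ) * dz j (cx f) z := by
  have h1 : HasFDerivAt (fun y => h (f y)) (deriv h (f z) • fderiv ℝ f z) z :=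
    hh.hasDerivAt.comp_hasFDerivAt z hf.hasFDerivAt
  unfold dz
  rw [fderiv_cx h1.differentiableAt, fderiv_cx h1.differentiableAt, fderiv_cx hf, fderiv_cx hf,
    h1.fderiv]
  simp only [_root_.smul_apply, smul_eq_mul, ofReal_mul]
  ring

theorem contDiffOn_dz_cx {D : Set (E n)} (hD : IsOpen D) {f : E n → ℝ}
    (hf : ContDiffOn ℝ ∞ f D) (j : Fin n) : ContDiffOn ℝ ∞ (dz j (cx f)) D := by
  intro z hz
  refine ContDiffAt.contDiffWithinAt ?_
  refine contDiffAt_dz (m := ⊤) ?_
  have := (contDiffOn_cx hf).contDiffAt (hD.mem_nhds hz)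
  simpa using this

theorem wpk (h1 : LcStmt) (h2 : ChiStmt) : WpkStmt := by
  classical
  intro n D s hs t ht K hK hKD
  obtain ⟨lcadd, lcmul, lccomp, lcnsq, -, -⟩ := h1 n
  obtain ⟨C, hC0, hC⟩ := tau_deriv_bound
  have hsc : ContinuousOn s D := hs.sm.continuousOn
  have hsA : ∀ z ∈ D, ContDiffAt ℝ ∞ s z := fun z hz => hs.sm.contDiffAt (hs.op.mem_nhds hz)
  have hsd : ∀ z ∈ D, DifferentiableAt ℝ s z := fun z hz => (hsA z hz).differentiableAt (by simp)
  -- the level `a`
  obtain ⟨a, ha⟩ : ∃ a : ℝ, ∀ z ∈ K, s z ≤ a - 2 := by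
    obtain ⟨b, hb⟩ := (hK.image_of_continuousOn (hsc.mono hKD)).bddAbove
    exact ⟨b + 2, fun z hz => by linarith [hb (mem_image_of_mem s hz)]⟩
  -- the function `g`
  set g : E n → ℝ := fun z => ∑ k, ‖dz k (cx s) z‖ ^ 2 with hg
  have hg0 : ∀ z, 0 ≤ g z := fun z => Finset.sum_nonneg fun _ _ => sq_nonneg _
  have hgs : ContDiffOn ℝ ∞ g D :=
    ContDiffOn.sum fun k _ => (contDiffOn_dz_cx hs.op hs.sm k).norm_sq ℝ
  set ψ : E n → ℝ := fun z => Real.smoothTransition (s z - a) * Real.log (1 + C ^ 2 * g z) with hψ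
  have hpos : ∀ z, 0 < 1 + C ^ 2 * g z := fun z => by
    have := hg0 z
    positivity
  have hψs : ContDiffOn ℝ ∞ ψ D := by
    refine ContDiffOn.mul ?_ ?_
    · exact (Real.smoothTransition.contDiff (n := ⊤)).comp_contDiffOn (hs.sm.sub contDiffOn_const)
    · exact ContDiffOn.log (contDiffOn_const.add (contDiffOn_const.mul hgs))
        fun z _ => (hpos z).ne'
  have hψ0 : ∀ z, s z ≤ a → ψ z = 0 := by
    intro z hz
    simp only [hψ]
    rw [Real.smoothTransition.zero_of_nonpos (by linarith), zero_mul]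
  have hψ1 : ∀ z, a + 1 ≤ s z → Real.exp (ψ z) = 1 + C ^ 2 * g z := by
    intro z hz
    simp only [hψ]
    rw [Real.smoothTransition.one_of_one_le (by linarith), one_mul, Real.exp_log (hpos z)]
  -- the shells
  have hshell : ∀ k : ℕ, IsCompact {z | z ∈ D ∧ a + k ≤ s z ∧ s z ≤ a + k + 1} := by
    intro k
    have hc := hs.cpt (a + k + 1)
    have e : {z | z ∈ D ∧ a + k ≤ s z ∧ s z ≤ a + k + 1} =
        {z | z ∈ D ∧ s z ≤ a + k + 1} ∩ s ⁻¹' (Ici (a + k)) := by
      ext z
      simp only [mem_ofPred_eq, mem_inter_iff, mem_preimage, mem_Ici]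
      tauto
    rw [e]
    have hcl := (hsc.mono (fun z hz => hz.1 : {z | z ∈ D ∧ s z ≤ a + k + 1} ⊆ D)).preimage_isClosed_of_isClosed
      hc.isClosed (isClosed_Ici (a := a + (k : ℝ)))
    exact hc.of_isClosed_subset hcl inter_subset_left
  -- the quantity to be dominated
  set Q : E n → ℝ := fun z => 2 * (∑ j, ‖dz j (cx ψ) z‖ ^ 2) + t * Real.exp (ψ z) with hQ
  have hQc : ContinuousOn Q D := by
    refine ContinuousOn.add (continuousOn_const.mul ?_) (continuousOn_const.mul ?_)
    · exact continuousOn_finsetSum _ fun j _ =>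
        ((contDiffOn_dz_cx hs.op hψs j).continuousOn.norm.pow 2)
    · exact Real.continuous_exp.comp_continuousOn hψs.continuousOn
  have hB : ∀ k : ℕ, ∃ b : ℝ, ∀ z ∈ D, a + k ≤ s z → s z ≤ a + k + 1 →
      ψ z ≤ b ∧ ∀ c, b ≤ c → ∀ w, Q z * nsq w ≤ c * Lv s z w := by
    intro k
    have hsub : {z | z ∈ D ∧ a + k ≤ s z ∧ s z ≤ a + k + 1} ⊆ D := fun z hz => hz.1
    obtain ⟨m, hm0, hm⟩ := Lv_lower hs (hshell k) hsub
    obtain ⟨M, hM⟩ := (hshell k).exists_bound_of_continuousOn (hQc.mono hsub)
    obtain ⟨M', hM'⟩ := (hshell k).exists_bound_of_continuousOn (hψs.continuousOn.mono hsub)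
    refine ⟨max M' (max M 0 / m), fun z hz h1 h2 => ⟨?_, fun c hc w => ?_⟩⟩
    · exact ((le_abs_self _).trans (hM' z ⟨hz, h1, h2⟩)).trans (le_max_left _ _)
    · have hQM : Q z ≤ max M 0 :=
        ((le_abs_self _).trans (hM z ⟨hz, h1, h2⟩)).trans (le_max_left _ _)
      have hcM : max M 0 / m ≤ c := (le_max_right _ _).trans hc
      have hc0 : 0 ≤ c := le_trans (div_nonneg (le_max_right _ _) hm0.le) hcM
      have h3 : max M 0 ≤ c * m := by
        rwa [div_le_iff₀ hm0] at hcM
      calc Q z * nsq w ≤ (c * m) * nsq w :=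
            mul_le_mul_of_nonneg_right (hQM.trans h3) (nsq_nonneg' w)
        _ = c * (m * nsq w) := by ring
        _ ≤ c * Lv s z w := mul_le_mul_of_nonneg_left (hm z ⟨hz, h1, h2⟩ w) hc0
  choose B hBψ using hB
  obtain ⟨χ, hχs, hχ0, hχnn, hχ1, hχ2, hχB⟩ := h2 B
  set Φ : E n → ℝ := fun z => t * nsq z + χ (s z - a) with hΦ
  set η : ℕ → E n → ℝ := fun m z =>
    if z ∈ D then 1 - Real.smoothTransition (s z - (m + a + 1)) else 0 with hη
  have hLv0 : ∀ z ∈ D, ∀ w, 0 ≤ Lv s z w := by
    intro z hz w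
    by_cases hw : w = 0
    · subst hw
      have h2 : Lv s z (0 : E n) = 0 := by rw [Lv_eq]; simp
      rw [h2]
    · exact (hs.psh z hz w hw).le
  have hΦL : ∀ z ∈ D, ∀ w, Lv Φ z w = t * nsq w +
      (deriv χ (s z - a) * Lv s z w + deriv (deriv χ) (s z - a) * ‖dl s z w‖ ^ 2) := by
    intro z hz w
    have hs2 : ContDiffAt ℝ 2 s z := (hsA z hz).of_le two_le_infty
    have hn2 : ContDiffAt ℝ 2 (nsq : E n → ℝ) z :=
      (contDiff_nsq.contDiffAt).of_le two_le_infty
    have hχ2' : ContDiff ℝ 2 (fun x => χ (x - a)) :=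
      (hχs.comp (contDiff_id.sub contDiff_const)).of_le two_le_infty
    have e1 := (lcadd (fun y => t * nsq y) (fun y => χ (s y - a)) z w
      (contDiffAt_const.mul hn2) (hχ2'.contDiffAt.comp z hs2)).1
    have e2 := (lcmul t nsq z w hn2).1
    have e3 : Lv (nsq : E n → ℝ) z w = nsq w := by
      have := (lcnsq 0 z w).1
      simpa using this
    have e4 := (lccomp (fun x => χ (x - a)) s z w hs2 hχ2'.contDiffAt).1
    have d1 : deriv (fun x => χ (x - a)) = fun x => deriv χ (x - a) := by
      funext x; exact deriv_comp_sub_const χ a x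
    have d2 : deriv (fun x => deriv χ (x - a)) = fun x => deriv (deriv χ) (x - a) := by
      funext x; exact deriv_comp_sub_const (deriv χ) a x
    rw [d1, d2] at e4
    rw [hΦ, e1, e2, e3]
    congr 1
  refine ⟨Φ, ψ, η, hs.op, ?_, hψs, ?_, ?_, ?_, ?_, ?_, ?_, ?_⟩
  · -- smΦ
    exact (contDiff_const.mul contDiff_nsq).contDiffOn.add
      (hχs.comp_contDiffOn (hs.sm.sub contDiffOn_const))
  · -- onK
    intro z hz
    refine ⟨?_, hψ0 z (by linarith [ha z hz])⟩
    simp only [hΦ]
    rw [hχ0 _ (by linarith [ha z hz]), add_zero]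
  · -- dom
    intro z hz
    simp only [hΦ]
    refine add_le_add_right ?_ _
    by_cases h : s z < a
    · rw [hψ0 z h.le]; exact hχnn _
    · push Not at h
      set k := ⌊s z - a⌋₊ with hk
      have k1 : (k : ℝ) ≤ s z - a := Nat.floor_le (by linarith)
      have k2 : s z - a < k + 1 := Nat.lt_floor_add_one _
      exact (hBψ k z hz (by linarith) (by linarith)).1.trans (hχB k _ k1).1
  · -- lev
    intro z hz w
    rw [hΦL z hz w]
    have hn := nsq_nonneg' w
    have hl := hLv0 z hz w
    have hc1 := hχ1 (s z - a)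
    have hc2 := hχ2 (s z - a)
    have hc3 : 0 ≤ deriv (deriv χ) (s z - a) * ‖dl s z w‖ ^ 2 := mul_nonneg hc2 (sq_nonneg _)
    by_cases h : s z < a
    · have hev : cx ψ =ᶠ[𝓝 z] fun _ => (0 : ℂ) := by
        have : ∀ᶠ y in 𝓝 z, s y < a := (hsA z hz).continuousAt.eventually_lt continuousAt_const h
        filter_upwards [this] with y hy
        simp [cx, hψ0 y hy.le]
      have e : ∀ j, dz j (cx ψ) z = 0 := fun j => by
        rw [dz_congr hev, dz_const]
      simp only [e, hψ0 z h.le]
      simp only [norm_zero, ne_eq, OfNat.ofNat_ne_zero, not_false_eq_true, zero_pow,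
        Finset.sum_const_zero, mul_zero, Real.exp_zero, mul_one, zero_add]
      have := mul_nonneg hc1 hl
      linarith
    · push Not at h
      set k := ⌊s z - a⌋₊ with hk
      have k1 : (k : ℝ) ≤ s z - a := Nat.floor_le (by linarith)
      have k2 : s z - a < k + 1 := Nat.lt_floor_add_one _
      have := (hBψ k z hz (by linarith) (by linarith)).2 _ (hχB k _ k1).2 w
      have h4 : 0 ≤ t * nsq w := mul_nonneg ht.le hn
      simp only [hQ] at this
      linarith
  · -- eta
    intro m
    have hcpt := hs.cpt (m + a + 2)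
    have hz0 : ∀ z, z ∉ {z | z ∈ D ∧ s z ≤ m + a + 2} → cx (η m) z = 0 := by
      intro z hz
      simp only [mem_ofPred_eq, not_and, not_le] at hz
      by_cases hzD : z ∈ D
      · have := hz hzD
        simp only [cx, hη, if_pos hzD]
        rw [Real.smoothTransition.one_of_one_le (by linarith)]
        simp
      · simp [cx, hη, if_neg hzD]
    refine ⟨?_, HasCompactSupport.intro hcpt fun z hz => hz0 z hz, ?_⟩
    · refine contDiff_iff_contDiffAt.2 fun z => ?_
      by_cases hz : z ∈ D
      · have e : cx (η m) =ᶠ[𝓝 z] cx (fun y =>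
            1 - Real.smoothTransition (s y - (m + a + 1))) := by
          filter_upwards [hs.op.mem_nhds hz] with y hy
          simp only [cx, hη, if_pos hy]
        refine ContDiffAt.congr_of_eventuallyEq ?_ e
        refine contDiffAt_cx ?_
        exact contDiffAt_const.sub ((Real.smoothTransition.contDiff (n := ⊤)).contDiffAt.comp z
          ((hsA z hz).sub contDiffAt_const))
      · have hz' : z ∉ {z | z ∈ D ∧ s z ≤ m + a + 2} := fun h => hz h.1
        have e : cx (η m) =ᶠ[𝓝 z] fun _ => (0 : ℂ) := by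
          filter_upwards [hcpt.isClosed.isOpen_compl.mem_nhds hz'] with y hy
          exact hz0 y hy
        exact contDiffAt_const.congr_of_eventuallyEq e
    · refine (closure_minimal (fun z hz => ?_) hcpt.isClosed).trans fun z hz => hz.1
      by_contra h
      exact hz (hz0 z h)
  · -- rng
    intro m z
    simp only [hη]
    split_ifs
    · exact ⟨by linarith [Real.smoothTransition.le_one (s z - (m + a + 1))],
        by linarith [Real.smoothTransition.nonneg (s z - (m + a + 1))]⟩
    · exact ⟨le_rfl, zero_le_one⟩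
  · -- grad
    intro m z hz
    by_cases h : a + 1 ≤ s z
    · rw [hψ1 z h]
      have e : cx (η m) =ᶠ[𝓝 z] cx (fun y =>
            1 - Real.smoothTransition (s y - (m + a + 1))) := by
        filter_upwards [hs.op.mem_nhds hz] with y hy
        simp only [cx, hη, if_pos hy]
      set h' : ℝ → ℝ := fun x => 1 - Real.smoothTransition (x - (m + a + 1)) with hh'
      have hdt : Differentiable ℝ Real.smoothTransition :=
        (Real.smoothTransition.contDiff (n := 1)).differentiable (by norm_num)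
      have hd' : HasDerivAt h' (- deriv Real.smoothTransition (s z - (m + a + 1))) (s z) := by
        have h1 : HasDerivAt (fun x => Real.smoothTransition (x - (m + a + 1)))
            (deriv Real.smoothTransition (s z - (m + a + 1))) (s z) :=
          (hdt (s z - (m + a + 1))).hasDerivAt.comp_sub_const (s z) (m + a + 1)
        simpa using h1.const_sub 1
      have e2 : ∀ k, dz k (cx (η m)) z =
          ((- deriv Real.smoothTransition (s z - (m + a + 1)) : ℝ) : ℂ) * dz k (cx s) z := by
        intro k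
        rw [dz_congr e k]
        have := dz_comp (h := h') (hsd z hz) hd'.differentiableAt k
        rw [hd'.deriv] at this
        exact this
      calc ∑ k, ‖dz k (cx (η m)) z‖ ^ 2
          = (deriv Real.smoothTransition (s z - (m + a + 1))) ^ 2 * g z := by
            simp only [e2, hg, Finset.mul_sum]
            refine Finset.sum_congr rfl fun k _ => ?_
            rw [norm_mul, mul_pow, Complex.norm_real, Real.norm_eq_abs, sq_abs]
            ring
        _ ≤ C ^ 2 * g z := by
            refine mul_le_mul_of_nonneg_right ?_ (hg0 z)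
            rw [← sq_abs]
            exact pow_le_pow_left₀ (abs_nonneg _) (hC _) 2
        _ ≤ 1 + C ^ 2 * g z := by linarith
    · push Not at h
      have hev : cx (η m) =ᶠ[𝓝 z] fun _ => (1 : ℂ) := by
        have h5 : ∀ᶠ y in 𝓝 z, s y < a + 1 :=
          (hsA z hz).continuousAt.eventually_lt continuousAt_const h
        filter_upwards [h5, hs.op.mem_nhds hz] with y hy hyD
        simp only [cx, hη, if_pos hyD]
        have hm0 : (0 : ℝ) ≤ m := Nat.cast_nonneg m
        rw [Real.smoothTransition.zero_of_nonpos (by linarith)]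
        simp
      have e : ∀ k, dz k (cx (η m)) z = 0 := fun k => by
        rw [dz_congr hev, dz_const]
      simp only [e]
      simp only [norm_zero, ne_eq, OfNat.ofNat_ne_zero, not_false_eq_true, zero_pow,
        Finset.sum_const_zero]
      exact (Real.exp_pos _).le
  · -- exh
    intro z hz
    obtain ⟨N, hN⟩ := exists_nat_gt (s z - a - 1)
    refine ⟨N, fun m hm => ?_⟩
    have hm' : (N : ℝ) ≤ m := Nat.cast_le.2 hm
    have h5 : ∀ᶠ y in 𝓝 z, s y < m + a + 1 :=
      (hsA z hz).continuousAt.eventually_lt continuousAt_const (by linarith)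
    filter_upwards [h5, hs.op.mem_nhds hz] with y hy hyD
    simp only [hη, if_pos hyD]
    rw [Real.smoothTransition.zero_of_nonpos (by linarith), sub_zero]

end Pool.Agent.DK.H79
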